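import Pool.Agent.Helper20.QD.St4

/-!
Project QD, part B (MP_d112a4_gt), module FTF: two Fuchsian representations are
quasiconformally conjugate.
-/

set_option autoImplicit false

open Filter Topology Matrix Set Metric
open scoped ComplexConjugate ComplexOrder

namespace Pool.Agent.Helper73.QD

open Pool.Agent.Helper35.PM Pool.Agent.Helper20.QD

/-- entrywise conjugate -/
private noncomputable def cj {Γ : Type} [Group Γ] (τ : Γ →* SL) : Γ →* SL :=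
  (Matrix.SpecialLinearGroup.map (n := Fin 2) (starRingEnd ℂ)).comp τ

private theorem cj_apply {Γ : Type} [Group Γ] (τ : Γ →* SL) (γ : Γ) (i j : Fin 2) :
    (cj τ γ : Mat) i j = conj ((τ γ : Mat) i j) := rfl

private theorem mob_cj {Γ : Type} [Group Γ] (τ : Γ →* SL) (γ : Γ) (z : ℂ) :
    mob (cj τ γ) z = conj (mob (τ γ) (conj z)) := by
  unfold mob
  rw [cj_apply, cj_apply, cj_apply, cj_apply, map_div₀, map_add, map_add, map_mul, map_mul,
    Complex.conj_conj]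

private theorem hs_cj {Γ : Type} [Group Γ] (τ : Γ →* SL) (γ : Γ) :
    hs (cj τ γ : Mat) = hs (τ γ : Mat) := by
  unfold hs
  refine Finset.sum_congr rfl fun i _ => Finset.sum_congr rfl fun j _ => ?_
  rw [cj_apply, RCLike.norm_conj]

private theorem fuch_cj {Γ : Type} [Group Γ] {τ : Γ →* SL} (h : Fuch τ) : Fuch (cj τ) where
  su := by
    intro γ
    obtain ⟨h1, h2⟩ := h.su γ
    refine ⟨?_, ?_⟩
    · rw [cj_apply, cj_apply, h1]
    · rw [cj_apply, cj_apply, h2]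
  discrete := by
    intro X
    have h1 := h.discrete X
    have h2 : {γ : Γ | hs (cj τ γ : Mat) ≤ X} = {γ : Γ | hs (τ γ : Mat) ≤ X} := by
      ext γ
      rw [mem_ofPred_eq, mem_ofPred_eq, hs_cj]
    rw [h2]
    exact h1
  cocompact := by
    obtain ⟨r, hr, h1⟩ := h.cocompact
    refine ⟨r, hr, fun z hz => ?_⟩
    have hz' : conj z ∈ D := by
      rw [mem_ball_zero_iff] at hz ⊢
      rwa [RCLike.norm_conj]
    obtain ⟨γ, hγ⟩ := h1 (conj z) hz'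
    refine ⟨γ, ?_⟩
    rw [mob_cj, RCLike.norm_conj]
    exact hγ

private theorem ftf_main (hSUB : StSUB) (hDET : StDET) (hDDI : StDDI) {Γ : Type} [Group Γ]
    {σ τ : Γ →* SL} (hσ : Fuch σ) (hτ : Fuch τ) {φ : ℂ → ℂ} (hD : Deg1 φ)
    (hB : BijOn φ SS SS) (he : ∀ γ, ∀ ζ ∈ SS, φ (mob (σ γ) ζ) = mob (τ γ) (φ ζ)) :
    ∃ (E : ℂ → ℂ) (k : ℝ), 0 ≤ k ∧ k < 1 ∧
      ContinuousOn E DD ∧ BijOn E D D ∧ BijOn E SS SS ∧ ContDiffOn ℝ 1 E D ∧
      (∀ z ∈ D, dz E z ≠ 0 ∧ ‖dzb E z‖ ≤ k * ‖dz E z‖) ∧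
      ∀ γ, ∀ z ∈ DD, E (mob (σ γ) z) = mob (τ γ) (E z) := by
  obtain ⟨E, hE1, hE2, hE3, hE4, hE5, hE6⟩ := hDET φ hD
  have hED : ∀ γ, ∀ z ∈ D, E (mob (σ γ) z) = mob (τ γ) (E z) := fun γ =>
    hE6 (τ γ) (σ γ) (hτ.su γ) (hσ.su γ) (he γ)
  obtain ⟨k, hk0, hk1, hk⟩ := hDDI Γ σ τ E hσ hτ.su hE3.mapsTo hE4 hE5 hED
  refine ⟨E, k, hk0, hk1, hE1, hE3, ?_, hE4, ?_, ?_⟩
  · exact hB.congr (fun ζ hζ => (hE2 ζ hζ).symm)
  · intro z hz
    refine ⟨?_, hk z hz⟩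
    intro h0
    have h1 := hE5 z hz
    rw [h0, norm_zero] at h1
    exact absurd h1 (not_lt.2 (norm_nonneg _))
  · intro γ z hz
    rcases lt_or_eq_of_le (mem_closedBall_zero_iff.1 hz) with h1 | h1
    · exact hED γ z (mem_ball_zero_iff.2 h1)
    · have hzS : z ∈ SS := mem_sphere_zero_iff_norm.2 h1
      have hmS : mob (σ γ) z ∈ SS := (hSUB.1 (σ γ) (hσ.su γ)).2.2.2.1.mapsTo hzS
      rw [hE2 _ hmS, hE2 _ hzS]
      exact he γ z hzS

theorem hFTF (hSUB : StSUB) (hDET : StDET) (hDDI : StDDI) (hLQC : StLQC) (hFSU : StFSU)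
    (hFCO : StFCO) (hFDG : StFDG) : StFTF := by
  intro Γ _ σ τ hσ hτ
  obtain ⟨hcc, hlim, -⟩ := hFSU Γ τ hτ
  have hQ : Qinf ∉ limitSet τ := by
    rw [hlim]
    rintro ⟨z, _, hz⟩
    exact (hLQC.2.2.1 z).2 hz
  have hinj : Function.Injective Qp := hLQC.2.2.2.2.2.2.1
  have hLam : Lam τ = SS := by
    ext z
    constructor
    · intro hz
      have h1 : Qp z ∈ limitSet τ := hz
      rw [hlim] at h1
      obtain ⟨w, hw, hwz⟩ := h1
      rwa [← hinj hwz]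
    · intro hz
      change Qp z ∈ limitSet τ
      rw [hlim]
      exact ⟨z, hz, rfl⟩
  obtain ⟨b, hb1, hb2, hb3, -⟩ := hFCO Γ σ τ hσ hcc hQ
  rw [hLam] at hb2
  obtain ⟨-, hdeg⟩ := hFDG.2.2.2 b hb1 hb2.injOn hb2.mapsTo
  rcases hdeg with hdeg | hdeg
  · obtain ⟨E, k, h1, h2, h3, h4, h5, h6, h7, h8⟩ :=
      ftf_main hSUB hDET hDDI hσ hτ hdeg hb2 hb3
    exact ⟨E, k, τ, h1, h2, hτ, Or.inl (fun _ => rfl), h3, h4, h5, h6, h7, h8⟩
  · have hcS : ∀ z : ℂ, z ∈ SS → conj z ∈ SS := by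
      intro z hz
      rw [mem_sphere_zero_iff_norm] at hz ⊢
      rwa [RCLike.norm_conj]
    have hB : BijOn (fun ζ => conj (b ζ)) SS SS := by
      refine ⟨fun z hz => hcS _ (hb2.mapsTo hz), ?_, ?_⟩
      · intro z hz w hw hzw
        have h1 : b z = b w := by
          have h2 := congrArg (starRingEnd ℂ) hzw
          rwa [Complex.conj_conj, Complex.conj_conj] at h2
        exact hb2.injOn hz hw h1
      · intro z hz
        obtain ⟨w, hw, hwz⟩ := hb2.surjOn (hcS z hz)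
        refine ⟨w, hw, ?_⟩
        change conj (b w) = z
        rw [hwz, Complex.conj_conj]
    have he : ∀ γ, ∀ ζ ∈ SS, (fun ζ => conj (b ζ)) (mob (σ γ) ζ)
        = mob (cj τ γ) ((fun ζ => conj (b ζ)) ζ) := by
      intro γ ζ hζ
      change conj (b (mob (σ γ) ζ)) = mob (cj τ γ) (conj (b ζ))
      rw [mob_cj, Complex.conj_conj, hb3 γ ζ hζ]
    obtain ⟨E, k, h1, h2, h3, h4, h5, h6, h7, h8⟩ :=
      ftf_main hSUB hDET hDDI hσ (fuch_cj hτ) hdeg hB he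
    exact ⟨E, k, cj τ, h1, h2, fuch_cj hτ, Or.inr (fun γ i j => cj_apply τ γ i j), h3, h4, h5,
      h6, h7, h8⟩

end Pool.Agent.Helper73.QD
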