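import Pool.Agent.Helper20.QD.St1

/-!
Project QD, part B (MP_d112a4_gt), module TJM: bounded components are detected.
-/

set_option autoImplicit false

open Filter Topology Matrix Set Metric
open scoped ComplexConjugate ComplexOrder

namespace Pool.Agent.Helper73.QD

open Pool.Agent.Helper35.PM Pool.Agent.Helper20.QD

theorem hTJM (hTCV : StTCV) (hTCI : StTCI) : StTJM := by
  intro V K p u m hVo hVb hpV hfr hu hu0 hlog
  obtain ⟨g, hg, hge⟩ := hlog
  have hgc : ContinuousOn g (frontier V) := hg.mono hfr
  obtain ⟨G, hG⟩ := ContinuousMap.exists_restrict_eq (isClosed_frontier (s := V))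
    (⟨(frontier V).domRestrict g, continuousOn_iff_continuous_domRestrict.1 hgc⟩ : C(frontier V, ℂ))
  have hGg : ∀ z ∈ frontier V, G z = g z := by
    intro z hz
    have h1 := congrArg (fun f : C(frontier V, ℂ) => f ⟨z, hz⟩) hG
    exact h1
  classical
  set F : ℂ → ℂ := fun z => if z ∈ closure V then Complex.exp (G z) / u z else (z - p) ^ m
    with hF
  have hF1 : ∀ z ∈ closure V, F z = Complex.exp (G z) / u z := fun z hz => if_pos hz
  have hF2 : ∀ z, z ∉ V → F z = (z - p) ^ m := by
    intro z hz
    by_cases h1 : z ∈ closure V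
    · rw [hF1 z h1]
      have h2 : z ∈ frontier V := ⟨h1, by rwa [hVo.interior_eq]⟩
      rw [hGg z h2, ← hge z (hfr h2)]
      exact mul_div_cancel_right₀ _ (hu0 z h1)
    · exact if_neg h1
  have hpne : ∀ z, z ∉ V → z - p ≠ 0 := by
    intro z hz h0
    rw [sub_eq_zero] at h0
    exact hz (h0 ▸ hpV)
  have hc1 : ContinuousOn F (closure V) := by
    have h1 : ContinuousOn (fun z => Complex.exp (G z) / u z) (closure V) :=
      (Complex.continuous_exp.comp G.continuous).continuousOn.div hu hu0
    exact h1.congr hF1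
  have hc2 : ContinuousOn F Vᶜ := by
    have h1 : ContinuousOn (fun z : ℂ => (z - p) ^ m) Vᶜ := by
      refine ContinuousOn.zpow₀ (continuous_id.sub continuous_const).continuousOn m ?_
      intro z hz
      exact Or.inl (hpne z hz)
    exact h1.congr hF2
  have hcF : Continuous F := by
    have hun : closure V ∪ Vᶜ = univ := by
      rw [eq_univ_iff_forall]
      intro z
      by_cases h1 : z ∈ V
      · exact Or.inl (subset_closure h1)
      · exact Or.inr h1
    rw [← continuousOn_univ, ← hun]
    exact hc1.union_of_isClosed hc2 isClosed_closure hVo.isClosed_compl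
  have hF0 : ∀ z, F z ≠ 0 := by
    intro z
    by_cases h1 : z ∈ closure V
    · rw [hF1 z h1]
      exact div_ne_zero (Complex.exp_ne_zero _) (hu0 z h1)
    · have h2 : z ∉ V := fun h => h1 (subset_closure h)
      rw [hF2 z h2]
      exact zpow_ne_zero _ (hpne z h2)
  obtain ⟨R, hR, hVR⟩ := hVb.closure.subset_ball_lt 0 p
  obtain ⟨L, hL, hLe⟩ := hTCV (closedBall p R) F (convex_closedBall p R) hcF.continuousOn
    (fun z _ => hF0 z)
  apply hTCI.1 p R m hR
  refine ⟨L, hL.mono sphere_subset_closedBall, ?_⟩
  intro z hz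
  have h1 : z ∉ V := by
    intro h
    have h2 := hVR (subset_closure h)
    rw [mem_ball] at h2
    rw [mem_sphere] at hz
    exact absurd hz h2.ne
  rw [← hLe z (sphere_subset_closedBall hz), hF2 z h1]

end Pool.Agent.Helper73.QD
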